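import Pool.Agent.Q46.IP.ToolsS
import Pool.Agent.Q46.SL.Sumset

/-!
# Every even gap between consecutive almost primes just above powers of two: polynomials on sumsets

The problem is on the primes `2 ^ n + x` with small `x`. Let `η = 2 ^ n ≤ p ^ K`, `K` arbitrary. For every `n` and every even `τ
≤ κ rankin(p)` we find many `x < p` such that `2 ^ n + x` and `2 ^ n + x + τ` are consecutive almost primes, everything else
near them being divisible by a prime `≤ log p`.

Let `p` be a large prime and let `A`, `B` be ARBITRARY sets of residues with `|A| |B| ≥ p ^ (1 + ε)` and `|A| ≥ p ^ (1 / 2 + ε)` (or more,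
if the values are restricted to a short interval `[s, s + N)`). For every polynomial `f` of degree `d ≥ 2` and all functions `u`, `v`
many pairs `(a, b)` in `A × B` are such that the least residue of `f(a + b) + u(a) + v(b)` has the property.

Here the property is, with `y = η + x`: `y` and `y + τ` have at most `R` prime factors, all larger than `M ^ κ`, while EVERY
other integer within distance `κ rankin(M)` of `y` has a prime factor `≤ log M`; `τ` is an arbitrary even integer with `|τ| ≤ κ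
rankin(M)`, `η` is an arbitrary integer, `|η| ≤ M ^ K`, and `rankin(M) = log M log₂ M log₄ M / (log₃ M) ^ 2`. (`M = p`)

Design and proof: helper46 (modules `Pool.Agent.Q46.IP.*`, `Pool.Agent.Q46.SL.*`): the Rankin covering argument with holes at the
pattern gives a modulus and a residue class in which everything else near the pattern is covered by the small primes; the sieve is
applied to the vectors of residues in this class, which are equidistributed with a power saving by bounds for exponential sums.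
-/

set_option autoImplicit false

namespace Pool.Agent.Results.MP_78b39f_nt.GapsPolynomialsOnSumsets

open Finset Polynomial Filter
open Pool.Agent.Q46.SL hiding Almost
open Pool.Agent.Q46.IP (LoneS csS evI sysT adm_pair adm_one lone_tupleS lone_pairS lone_oneS)

/-- `n` is not zero and has at most `R` prime factors (counted with multiplicity), all larger than `z` -/
def Almost (z : ℝ) (R : ℕ) (n : ℤ) : Prop :=
  n ≠ 0 ∧ n.natAbs.primeFactorsList.length ≤ R ∧ ∀ q : ℕ, q.Prime → (q : ℤ) ∣ n → z < q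

/-- Rankin's function `log M log₂ M log₄ M / (log₃ M) ^ 2` (iterated logarithms) -/
noncomputable def rankin (M : ℝ) : ℝ :=
  Real.log M * Real.log (Real.log M) * Real.log (Real.log (Real.log (Real.log M))) /
    (Real.log (Real.log (Real.log M))) ^ 2

/-- `y` and `y + τ` have at most `R` prime factors, all larger than `M ^ κ`, and every other integer `y + i` with
`|i| ≤ κ rankin(M)` has a prime factor `≤ log M` -/
def GapAt (τ : ℤ) (κ M : ℝ) (R : ℕ) (y : ℤ) : Prop :=
  Almost (M ^ κ) R y ∧ Almost (M ^ κ) R (y + τ) ∧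
    ∀ i : ℤ, |(i : ℝ)| ≤ κ * rankin M → i ≠ 0 → i ≠ τ → ∃ q : ℕ, q.Prime ∧ (q : ℝ) ≤ Real.log M ∧ (q : ℤ) ∣ y + i

open Classical in
/-- the number of pairs `z` in `S` for which the least residue `y` of `F z` satisfies `u ≤ y < u + N` and has the property `P` -/
noncomputable def hits {p : ℕ} {V : Type} (S : Finset (V × V)) (F : V × V → ZMod p) (u N : ℕ) (P : ℤ → Prop) : ℕ :=
  (S.filter (fun z => (u ≤ (F z).val ∧ (F z).val < u + N) ∧ P (F z).val)).card

/-- Every even `τ ≤ κ rankin(p)` is a gap between almost primes `η + x`, `η + x + τ` at many of the least residues `x` of `f(a + b) + u(a) + v(b)`, uniformly in `η`. -/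
theorem result (K : ℕ) (d : ℕ) (hd : 2 ≤ d) (ε : ℝ) (hε : 0 < ε) (hε1 : ε ≤ 1) :
    ∃ κ : ℝ, 0 < κ ∧ ∃ R p₀ : ℕ, ∀ p : ℕ, p₀ ≤ p → p.Prime → ∀ τ : ℤ, Even τ → |(τ : ℝ)| ≤ κ * rankin p → ∀ η : ℤ, |(η : ℝ)| ≤ (p : ℝ) ^ K → ∀ (A B : Finset (ZMod p)) (f : (ZMod p)[X]), f.natDegree = d →
      ∀ (u v : ZMod p → ZMod p) (s N : ℕ), s + N ≤ p → (p : ℝ) ^ (3 + ε) ≤ (N : ℝ) ^ 2 * A.card * B.card →
      (p : ℝ) ^ (5 / 2 + ε) ≤ (N : ℝ) ^ 2 * A.card →
      ((N : ℝ) * A.card * B.card / p) * (p : ℝ) ^ (-ε) ≤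
        hits (A ×ˢ B) (fun z => f.eval (z.1 + z.2) + u z.1 + v z.2) s N (fun x => GapAt τ κ p R (η + x)) := by
  classical
  obtain ⟨κ, hκ, cc, hcc, p₀, h⟩ := Pool.Agent.Q46.SL.sumset_poly (LoneS 3 K : PE 2 0 2 × ℤ → ℝ → ℝ → ℤ → Prop)
    (fun k' M => M ^ (-(ε / (2 * (((1 : ℕ) : ℝ) + 1)) * k'))) (fun k' _ => csS 2 2 3 K (ε / (2 * (((1 : ℕ) : ℝ) + 1))) (by positivity) k') d hd ε hε hε1
  obtain ⟨p₁, hp₁8, hp₁, hp₂⟩ := evI hcc hε hκ 1
  refine ⟨κ, hκ, ⌊((((K + 2) * (2 + 1) : ℕ)) : ℝ) / κ⌋₊, max p₁ p₀, ?_⟩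
  intro p hp hpp τ hτ hτκ η hη A B f hf u v s N hs h3 h4
  have hpr : (p₁ : ℝ) ≤ p := by exact_mod_cast (le_max_left _ _).trans hp
  have : Fact p.Prime := ⟨hpp⟩
  have key := h p ((le_max_right _ _).trans hp) (sysT ![0, τ] (adm_pair hτ), η) hpp A B f hf u v s N hs h3 h4
  refine le_trans (hp₁ _ hpr _ (by positivity)) (key.trans ?_)
  unfold hits Pool.Agent.Q46.SL.good1
  refine Nat.cast_le.2 ?_
  apply card_le_card
  intro z hz
  rw [mem_filter, mem_Ico] at hz
  rw [mem_filter]
  exact ⟨hz.1, hz.2.1, lone_pairS hτ hp₁8 hpr hη (hp₂ _ hpr) hτκ hz.2.2 (by exact_mod_cast (ZMod.val_lt _).le)⟩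

end Pool.Agent.Results.MP_78b39f_nt.GapsPolynomialsOnSumsets
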