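import Pool.Agent.Q315.RD2

/-!
# Almost primes at the same distance on both sides of `m` consecutive powers of two

The question asks for a prime in every interval `[2 ^ n, 2 ^ n + p_n]`. Fix `m ≥ 1`. We look at the `m` consecutive
powers `2 ^ n, ..., 2 ^ (n + m - 1)` at the same time: at the `2 m` numbers `2 ^ (n + i) + j` and `2 ^ (n + i) - j`,
`i < m`, with a common distance `j`.

Let `g ≥ 2` be a base and `K` a large number of digits, let `A 0, ..., A (K - 1)` be arbitrary sets of digits of which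
we only assume that they are not too small on average (`Rich`: the number `|A 0| ⋯ |A (K - 1)|` of the `t < g ^ K` with
the digits `A i` is at least `exp (- c K) g ^ K`), and let `[j₀, j₀ + g ^ K)` be an arbitrary interval of distances
of this length, `2 (j₀ + g ^ K) ≤ 2 ^ n`; it may be as short as an arbitrarily small power of `2 ^ n`
(`2 ^ n ≤ g ^ (E K)`), and `j₀ = 0` is allowed.

* The number of the `j = j₀ + t` with these `t` for which ALL the `2 m` numbers have at most `r` prime factors, all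
  larger than `g ^ (K / r)`, is at least `κ V |A 0| ⋯ |A (K - 1)|`, unless there is an obvious obstruction (no last digit
  `d` in `A 0` for which the `2 m` numbers for `j = j₀ + d` are prime to `g`).
* The number of these `j` for which all `2 m` numbers are primes is at most `C V |A 0| ⋯ |A (K - 1)|`.

Here `V` is the expected density, the product of `1 - ν (p) / p` over the primes `p ≤ g ^ K`, where `ν (p)` is the number
of the classes `j` modulo `p` for which `p` divides one of the `2 m` numbers (it depends on the order of `2` modulo `p`).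
All constants are independent of `n`, `j₀` and of the sets `A i`; the theorem holds for EVERY `n` in the range. For
instance, take for `g` a power of two: the binary digits of the distance may be prescribed at a small positive proportion
of the places.

Proof. There is no local obstruction: take `j` odd and divisible by `p` for the odd primes `p`. The theorem on almost
prime values of polynomials at integers with restricted digits, uniform in the polynomial, is from the starting library
(`Pool.Agent.Y816.PD.uni_fun`), in the form of `Pool.Agent.Q315.RD.formsZ`.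
-/

set_option autoImplicit false

namespace Pool.Agent.Results.MP_78b39f_nt.SameDistances

open Filter Finset Polynomial
open Pool.Agent.Q315.RD

/-- The product of `1 - ν / p` over the primes `p ≤ y`, where `ν` is the number of the residue classes `j` modulo `p`
such that `p` divides one of the integers `2 ^ (n + i) + j`, `2 ^ (n + i) - j`, `i < m`. -/
noncomputable def V (n m y : ℕ) : ℝ :=
  ∏ p ∈ (Icc 1 y).filter Nat.Prime, (1 - (classes p fun j => ∃ i < m,
    (p : ℤ) ∣ (2 : ℤ) ^ (n + i) + j ∨ (p : ℤ) ∣ (2 : ℤ) ^ (n + i) - j) / (p : ℝ))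

/-- the forms -/
def F (n j₀ m : ℕ) : Fin (2 * m) → ℕ → ℤ := fun i t =>
  if (i : ℕ) < m then (2 : ℤ) ^ (n + i) + (j₀ + t)
  else (2 : ℤ) ^ (n + ((i : ℕ) - m)) - (j₀ + t)

lemma forall_F {n j₀ m : ℕ} {t : ℕ} {P : ℤ → Prop} : (∀ i, P (F n j₀ m i t)) ↔
    ∀ i < m, P ((2 : ℤ) ^ (n + i) + (j₀ + t)) ∧ P ((2 : ℤ) ^ (n + i) - (j₀ + t)) := by
  constructor
  · intro h i hi
    constructor
    · have h1 := h ⟨i, by omega⟩
      unfold F at h1
      simpa only [hi, if_true] using h1
    · have h1 := h ⟨i + m, by omega⟩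
      unfold F at h1
      have h2 : ¬ (i + m < m) := by omega
      simp only [h2, if_false, Nat.add_sub_cancel] at h1
      exact h1
  · intro h i
    have hi := i.2
    unfold F
    split_ifs with h1
    · exact (h i h1).1
    · exact (h (i - m) (by omega)).2

lemma exists_F {n j₀ m : ℕ} {t : ℕ} {P : ℤ → Prop} : (∃ i, P (F n j₀ m i t)) ↔
    ∃ i < m, P ((2 : ℤ) ^ (n + i) + (j₀ + t)) ∨ P ((2 : ℤ) ^ (n + i) - (j₀ + t)) := by
  have h := @forall_F n j₀ m t (fun x => ¬ P x)
  constructor
  · intro h1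
    by_contra h2
    push Not at h2
    obtain ⟨i, hi⟩ := h1
    exact h.2 (fun i hi => h2 i hi) i hi
  · intro h1
    by_contra h2
    push Not at h2
    obtain ⟨i, hi, h3⟩ := h1
    have h4 := h.1 h2 i hi
    tauto

lemma density_F (n j₀ m y : ℕ) : rootDensity (fun t => ∏ i, F n j₀ m i t) y = V n m y := by
  classical
  unfold rootDensity V
  apply prod_congr rfl
  intro p hp
  have hp2 := (mem_filter.1 hp).2
  congr 3
  rw [← classes_shift p j₀ (fun j => ∃ i < m, (p : ℤ) ∣ (2 : ℤ) ^ (n + i) + j ∨ (p : ℤ) ∣ (2 : ℤ) ^ (n + i) - j)]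
  · unfold classes
    apply congrArg
    ext t
    simp only [mem_filter]
    refine and_congr_right fun _ => ?_
    rw [dvd_prodZ _ hp2, exists_F (P := fun x => (p : ℤ) ∣ x)]
    simp only [Nat.cast_add]
  · intro j
    refine exists_congr fun i => and_congr_right fun _ => or_congr ?_ ?_
    · refine Int.dvd_iff_dvd_of_dvd_sub ⟨1, ?_⟩
      push_cast
      ring
    · refine Int.dvd_iff_dvd_of_dvd_sub ⟨-1, ?_⟩
      push_cast
      ring

lemma adm (n j₀ m p : ℕ) (hn : 1 ≤ n) (hp : p.Prime) : ∃ t : ℕ, ¬ (p : ℤ) ∣ ∏ i, F n j₀ m i t := by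
  rcases hp.eq_two_or_odd' with h2 | h2
  · subst h2
    refine ⟨j₀ + 1, fun h => ?_⟩
    rw [dvd_prodZ _ hp, exists_F (P := fun x => ((2 : ℕ) : ℤ) ∣ x)] at h
    obtain ⟨i, hi, h1⟩ := h
    obtain ⟨a, ha⟩ : ((2 : ℕ) : ℤ) ∣ (2 : ℤ) ^ (n + i) := by
      push_cast
      exact dvd_pow_self _ (by omega)
    push_cast at ha h1
    rw [ha] at h1
    omega
  · have hp1 := hp.one_lt
    refine ⟨(p - 1) * j₀, fun h => ?_⟩
    rw [dvd_prodZ _ hp, exists_F (P := fun x => (p : ℤ) ∣ x)] at h
    obtain ⟨i, hi, h1⟩ := h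
    have h3 : ((j₀ : ℤ) + (((p - 1) * j₀ : ℕ) : ℤ)) = p * j₀ := by
      push_cast [Nat.cast_sub hp1.le]
      ring
    have h4 : (p : ℤ) ∣ (2 : ℤ) ^ (n + i) := by
      rcases h1 with h1 | h1
      · rw [h3] at h1
        exact (dvd_add_left (Dvd.intro _ rfl)).1 h1
      · rw [h3] at h1
        exact (dvd_sub_left (Dvd.intro _ rfl)).1 h1
    have h5 : (p : ℤ) ∣ 2 := (Nat.prime_iff_prime_int.1 hp).dvd_of_dvd_pow h4
    have h6 : p ∣ 2 := by exact_mod_cast h5
    have h7 : p = 2 := (Nat.prime_dvd_prime_iff_eq hp Nat.prime_two).1 h6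
    subst h7
    exact (Nat.not_odd_iff_even.2 even_two) h2

/-- **Almost primes at the same distance on both sides of `m` consecutive powers of two, for distances with restricted
digits.** -/
theorem result (m E : ℕ) (hm : 1 ≤ m) :
    ∃ c : ℝ, 0 < c ∧ ∃ r₀ : ℕ, 2 ≤ r₀ ∧ ∀ r : ℕ, r₀ ≤ r → ∀ g : ℕ, 2 ≤ g → ∃ κ C : ℝ, 0 < κ ∧ 0 < C ∧
      ∀ᶠ K : ℕ in atTop, ∀ n j₀ : ℕ, 2 ^ n ≤ g ^ (E * K) → 2 * (j₀ + g ^ K) ≤ 2 ^ n →
        ∀ A : ℕ → Finset ℕ, Rich c g K A →
        ((∃ d ∈ A 0, ∀ i < m, (2 ^ (n + i) + (j₀ + d)).Coprime g ∧ (2 ^ (n + i) - (j₀ + d)).Coprime g) →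
          κ * V n m (g ^ K) * choices K A ≤
            count g K A fun t => ∀ i < m, AlmostPrime (g ^ K) r (2 ^ (n + i) + (j₀ + t)) ∧
              AlmostPrime (g ^ K) r (2 ^ (n + i) - (j₀ + t))) ∧
        (count g K A (fun t => ∀ i < m, (2 ^ (n + i) + (j₀ + t)).Prime ∧ (2 ^ (n + i) - (j₀ + t)).Prime) : ℝ) ≤
          C * V n m (g ^ K) * choices K A := by
  obtain ⟨c, hc, r₀, hr₀, h⟩ := formsZ (2 * m) (2 * m * (E + 1)) (by omega)
  refine ⟨c, hc, r₀, hr₀, fun r hr g hg => ?_⟩
  obtain ⟨κ, C, hκ, hC, h1⟩ := h r hr g hg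
  refine ⟨κ, C, hκ, hC, ?_⟩
  have hT : Tendsto (fun K : ℕ => g ^ K) atTop atTop := tendsto_pow_atTop_atTop_of_one_lt (show 1 < g by omega)
  filter_upwards [h1, eventually_ge_atTop 1, hT.eventually_ge_atTop (2 ^ (m + 1))] with K hK hK1 hKm
  intro n j₀ hn hj A hA
  have hgK : 2 ≤ g ^ K := (show 2 ≤ g from hg).trans (Nat.le_self_pow (by omega) g)
  have hn1 : 1 ≤ n := by
    by_contra h0
    have : n = 0 := by omega
    subst this
    omega
  have hb : ∀ t < g ^ K, ∀ i < m, 2 * (j₀ + t) < 2 ^ (n + i) := by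
    intro t ht i hi
    have : 2 ^ n ≤ 2 ^ (n + i) := Nat.pow_le_pow_right (by norm_num) (by omega)
    omega
  have eu : ∀ t i : ℕ, ((2 : ℤ) ^ (n + i) + ((j₀ : ℤ) + t)).natAbs = 2 ^ (n + i) + (j₀ + t) := by
    intro t i
    have : (2 : ℤ) ^ (n + i) + ((j₀ : ℤ) + t) = ((2 ^ (n + i) + (j₀ + t) : ℕ) : ℤ) := by
      push_cast
      ring
    rw [this, Int.natAbs_natCast]
  have ed : ∀ t < g ^ K, ∀ i < m, ((2 : ℤ) ^ (n + i) - ((j₀ : ℤ) + t)).natAbs = 2 ^ (n + i) - (j₀ + t) := by
    intro t ht i hi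
    have h3 := hb t ht i hi
    have : (2 : ℤ) ^ (n + i) - ((j₀ : ℤ) + t) = ((2 ^ (n + i) - (j₀ + t) : ℕ) : ℤ) := by
      rw [Nat.cast_sub (by omega)]
      push_cast
      ring
    rw [this, Int.natAbs_natCast]
  have key : ∀ (P : ℕ → Prop) (t : ℕ), t < g ^ K → ((∀ i, P (F n j₀ m i t).natAbs) ↔
      ∀ i < m, P (2 ^ (n + i) + (j₀ + t)) ∧ P (2 ^ (n + i) - (j₀ + t))) := by
    intro P t ht
    rw [forall_F (P := fun x => P x.natAbs)]
    refine forall_congr' fun i => forall_congr' fun hi => ?_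
    rw [eu, ed t ht i hi]
  obtain ⟨hlow, hup⟩ := hK (2 * m) (F n j₀ m)
    ⟨∏ i : Fin (2 * m), (if (i : ℕ) < m then (Polynomial.C ((2 : ℤ) ^ (n + (i : ℕ)) + j₀) + X)
        else (Polynomial.C ((2 : ℤ) ^ (n + ((i : ℕ) - m)) - j₀) - X)), by
      refine (natDegree_prod_le _ _).trans ?_
      calc ∑ i : Fin (2 * m), (if (i : ℕ) < m then (Polynomial.C ((2 : ℤ) ^ (n + (i : ℕ)) + j₀) + X)
              else (Polynomial.C ((2 : ℤ) ^ (n + ((i : ℕ) - m)) - j₀) - X)).natDegree
            ≤ ∑ i : Fin (2 * m), 1 := by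
            refine sum_le_sum fun i _ => ?_
            split_ifs <;> compute_degree
        _ = 2 * m := by simp, fun t => by
      rw [eval_prod]
      refine prod_congr rfl fun i _ => ?_
      unfold F
      split_ifs
      · simp only [eval_add, eval_X, eval_C]
        ring
      · simp only [eval_sub, eval_X, eval_C]
        ring⟩
    (fun p hp => adm n j₀ m p hn1 hp)
    (fun t ht => by
      refine (key (fun x => t ≤ x) t ht).2 fun i hi => ?_
      have h3 := hb t ht i hi
      constructor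
      · omega
      · omega)
    (fun t ht => by
      have h3 : ∀ i, (F n j₀ m i t).natAbs ≤ g ^ ((E + 1) * K) := by
        refine (key (fun x => x ≤ g ^ ((E + 1) * K)) t ht).2 fun i hi => ?_
        have h3 := hb t ht i hi
        have h4 : 2 ^ (n + i) * 2 ≤ g ^ ((E + 1) * K) := by
          calc 2 ^ (n + i) * 2 = 2 ^ n * 2 ^ (i + 1) := by ring
            _ ≤ g ^ (E * K) * g ^ K :=
              Nat.mul_le_mul hn ((Nat.pow_le_pow_right (by norm_num) (by omega)).trans hKm)
            _ = g ^ ((E + 1) * K) := by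
              rw [← pow_add]
              congr 1
              ring
        constructor
        · omega
        · omega
      calc ∏ i, (F n j₀ m i t).natAbs ≤ ∏ _i : Fin (2 * m), g ^ ((E + 1) * K) :=
            prod_le_prod' fun i _ => h3 i
        _ = g ^ (2 * m * (E + 1) * K) := by
          rw [prod_const, card_univ, Fintype.card_fin, ← pow_mul]
          congr 1
          ring) A hA
  rw [density_F] at hlow hup
  constructor
  · rintro ⟨d, hd, hd1⟩
    have hdK : d < g ^ K := by
      have := mem_range.1 (hA.1 0 (by omega) hd)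
      exact this.trans_le (Nat.le_self_pow (by omega) g)
    refine (hlow ⟨d, hd, (key (fun x => x.Coprime g) d hdK).2 hd1⟩).trans (Nat.cast_le.2 (count_mono ?_))
    intro t ht ha
    exact (key (fun x => AlmostPrime (g ^ K) r x) t ht).1 ha
  · refine le_trans (Nat.cast_le.2 (count_mono ?_)) hup
    intro t ht ha
    exact (key (fun x => x.Prime) t ht).2 ha

end Pool.Agent.Results.MP_78b39f_nt.SameDistances
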