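import Pool.Agent.Q25.UReg6

/-!
# Almost primes at the same distance on both sides of `s` consecutive powers of two: the laws, for every `n`

Let `s ≥ 1`, `0 < η ≤ E`, `0 < θ`.  For EVERY large `X` and EVERY `n` with `X ^ η ≤ 2 ^ n ≤ X ^ E` (so that the distances
`m ≤ X` may be as small as any fixed power of `2 ^ n`) call the distance `m` good if none of the `2s` numbers
`2 ^ j + m`, `2 ^ j - m`, `n ≤ j < n + s`, has a prime factor `≤ X ^ (1/r)`.  In ALL intervals of length at least `X ^ θ`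
the numbers of the good `m` in windows follow the Poisson law and the gaps between the good `m` are exponentially
distributed, and almost all elements of an ARBITRARY set of good `m` (for instance of the `m` for which all `2s` numbers
are prime) are regular points of this set.
-/

set_option autoImplicit false

namespace Pool.Agent.Results.MP_78b39f_nt.UniformLaws

open Finset
open Pool.Agent.Q25.UReg (Good V count pois PoissonLaw GapLaw N RightOrder ConstantDensity badScales Irregular)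

/-- the coefficients of `m` in `2 ^ (n + i) + m` (index `i < s`) and in `2 ^ (n + i) - m` (index `s + i`) -/
def co (s : ℕ) (i : Fin (2 * s)) : ℤ := if (i : ℕ) < s then 1 else -1

/-- the constant terms: `2 ^ (n + i)` (index `i < s`) and `2 ^ (n + i)` (index `s + i`) -/
def ct (s n : ℕ) (i : Fin (2 * s)) : ℤ :=
  if (i : ℕ) < s then 2 ^ (n + (i : ℕ)) else 2 ^ (n + ((i : ℕ) - s))

lemma co_ne (s : ℕ) (i : Fin (2 * s)) : co s i ≠ 0 := by
  unfold co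
  split_ifs <;> norm_num

lemma ct_pow (s n : ℕ) (i : Fin (2 * s)) : ∃ j : ℕ, j < s ∧ ct s n i = 2 ^ (n + j) ∧
    (j = (i : ℕ) ∧ (i : ℕ) < s ∨ j + s = (i : ℕ) ∧ ¬ (i : ℕ) < s) := by
  have hi := i.isLt
  unfold ct
  split_ifs with h
  · exact ⟨i, h, rfl, Or.inl ⟨rfl, h⟩⟩
  · exact ⟨(i : ℕ) - s, by omega, rfl, Or.inr ⟨by omega, h⟩⟩

lemma adm (s n : ℕ) (hn : 1 ≤ n) (p : ℕ) (hp : p.Prime) :
    ∃ m : ℤ, ∀ i, ¬ (p : ℤ) ∣ co s i * m + ct s n i := by
  rcases hp.two_le.lt_or_eq with h2 | h2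
  · refine ⟨0, fun i h => ?_⟩
    obtain ⟨j, -, hj, -⟩ := ct_pow s n i
    rw [mul_zero, zero_add, hj] at h
    have h3 : p ∣ 2 ^ (n + j) := by exact_mod_cast h
    have h4 := (Nat.prime_dvd_prime_iff_eq hp Nat.prime_two).1 (hp.dvd_of_dvd_pow h3)
    omega
  · subst h2
    refine ⟨1, fun i h => ?_⟩
    obtain ⟨j, -, hj, -⟩ := ct_pow s n i
    rw [hj] at h
    have h3 : (2 : ℤ) ∣ 2 ^ (n + j) := dvd_pow_self _ (by omega)
    have h4 : (2 : ℤ) ∣ co s i * 1 := by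
      have := dvd_sub h h3
      push_cast at this
      rwa [add_sub_cancel_right] at this
    unfold co at h4
    split_ifs at h4
    · norm_num at h4
    · norm_num at h4

lemma two (s n : ℕ) (hs : 1 ≤ s) : Pool.Agent.Q25.UReg.TwoForms (co s) (ct s n) := by
  refine ⟨⟨0, by omega⟩, ⟨s, by omega⟩, ?_, ?_⟩
  · rintro ⟨h, -⟩
    unfold co at h
    simp only [lt_irrefl, if_false] at h
    rw [if_pos (by omega)] at h
    norm_num at h
  · rintro ⟨-, h⟩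
    obtain ⟨j, -, hj, -⟩ := ct_pow s n ⟨0, by omega⟩
    obtain ⟨l, -, hl, -⟩ := ct_pow s n ⟨s, by omega⟩
    rw [hj, hl] at h
    have h1 : (0 : ℤ) < 2 ^ (n + j) := by positivity
    have h2 : (0 : ℤ) < 2 ^ (n + l) := by positivity
    omega

lemma noTr (s n : ℕ) (U : ℝ) (hU : U < 2 ^ n) :
    Pool.Agent.Q25.UReg.NoTranslates2 (co s) (ct s n) U := by
  intro i j t ht htU
  have h1 : (t : ℝ) < 2 ^ n := lt_of_le_of_lt htU hU
  have h2 : (t : ℤ) < 2 ^ n := by exact_mod_cast h1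
  have ht' : (1 : ℤ) ≤ t := by exact_mod_cast ht
  obtain ⟨a, ha, hi, hia⟩ := ct_pow s n i
  obtain ⟨b, hb, hj, hjb⟩ := ct_pow s n j
  have e1 : (2 : ℤ) ^ (n + a) = 2 ^ n * 2 ^ a := pow_add _ _ _
  have e2 : (2 : ℤ) ^ (n + b) = 2 ^ n * 2 ^ b := pow_add _ _ _
  have hP : (0 : ℤ) < 2 ^ n := by positivity
  have ha1 : (1 : ℤ) ≤ 2 ^ a := one_le_pow₀ (by norm_num)
  have hb1 : (1 : ℤ) ≤ 2 ^ b := one_le_pow₀ (by norm_num)
  have ha2 : (2 : ℤ) ^ n ≤ 2 ^ (n + a) := by rw [e1]; nlinarith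
  have hb2 : (2 : ℤ) ^ n ≤ 2 ^ (n + b) := by rw [e2]; nlinarith
  -- a multiple of `2 ^ n` is not `± t`
  have hmul : ∀ z : ℤ, 2 ^ n * z ≠ t := by
    intro z hz
    have hz0 : 0 < z := by
      by_contra hcon
      have : 2 ^ n * z ≤ 0 := mul_nonpos_of_nonneg_of_nonpos hP.le (by omega)
      omega
    have : (2 : ℤ) ^ n ≤ 2 ^ n * z := by nlinarith
    omega
  rw [hi, hj]
  unfold co
  split_ifs
  · refine ⟨fun h => ?_, fun h => ?_⟩
    · apply hmul (2 ^ a - 2 ^ b)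
      have := h.2
      rw [mul_sub, ← e1, ← e2]
      linarith
    · have := h.1
      omega
  · refine ⟨fun h => ?_, fun h => ?_⟩
    · have := h.1
      omega
    · have := h.2
      linarith
  · refine ⟨fun h => ?_, fun h => ?_⟩
    · have := h.1
      omega
    · have := h.2
      linarith
  · refine ⟨fun h => ?_, fun h => ?_⟩
    · apply hmul (2 ^ b - 2 ^ a)
      have := h.2
      rw [mul_sub, ← e1, ← e2]
      linarith
    · have := h.1
      omega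

lemma bounds (s n X : ℕ) (E : ℝ) (hE : 0 < E) (hX : 2 ^ s ≤ X) (hn : (2 : ℝ) ^ n ≤ (X : ℝ) ^ E) :
    (∀ i, |(co s i : ℝ)| ≤ (X : ℝ) ^ (E + 1)) ∧ ∀ i, |(ct s n i : ℝ)| ≤ (X : ℝ) ^ (E + 1) := by
  have hX1 : (1 : ℝ) ≤ X := by
    have : 1 ≤ X := le_trans Nat.one_le_two_pow hX
    exact_mod_cast this
  have hXs : (2 : ℝ) ^ s ≤ X := by exact_mod_cast hX
  constructor
  · intro i
    have h1 : (1 : ℝ) ≤ (X : ℝ) ^ (E + 1) := Real.one_le_rpow hX1 (by linarith)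
    unfold co
    split_ifs
    · simpa using h1
    · simpa using h1
  · intro i
    obtain ⟨j, hj, hij, -⟩ := ct_pow s n i
    rw [hij]
    push_cast
    rw [abs_of_nonneg (by positivity), Real.rpow_add (by linarith), Real.rpow_one, pow_add]
    refine mul_le_mul hn ((pow_le_pow_right₀ (by norm_num) hj.le).trans hXs) (by positivity) (by positivity)

/-- **The laws of the distances at which there are almost primes on both sides of `s` consecutive powers of two.** -/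
theorem result (s : ℕ) (hs : 1 ≤ s) (E η θ : ℝ) (hE : 0 < E) (hη : 0 < η) (hθ : 0 < θ) :
    (∀ (l₀ : ℕ) (x₀ ε : ℝ), 0 < ε → ∃ r₀ : ℕ, ∀ r : ℕ, r₀ ≤ r → ∃ X₀ : ℕ, ∀ X : ℕ, X₀ ≤ X →
      ∀ n : ℕ, (X : ℝ) ^ η ≤ 2 ^ n → (2 : ℝ) ^ n ≤ (X : ℝ) ^ E → ∀ Z Y : ℕ, (X : ℝ) ^ θ ≤ Y →
        PoissonLaw (co s) (ct s n) r X Z Y x₀ ε ∧ GapLaw (co s) (ct s n) r X Z Y l₀ x₀ ε) ∧
    ∃ r₀ : ℕ, ∀ r : ℕ, r₀ ≤ r → ∀ ε : ℝ, 0 < ε → ∃ c : ℝ, 0 < c ∧ ∀ δ : ℝ, 0 < δ → ∃ B X₀ : ℕ,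
      ∀ X : ℕ, X₀ ≤ X → ∀ n : ℕ, 1 ≤ n → (2 : ℝ) ^ n ≤ (X : ℝ) ^ E →
        ∀ u Y : ℕ, (X : ℝ) ^ θ ≤ Y → Y ≤ X → Y ≤ u →
        ∀ A : Set ℕ, (∀ m ∈ A, Good (co s) (ct s n) r X m) →
          (N (Irregular A (V (co s) (ct s n) r X) c δ B Y) u (u + Y) : ℝ) ≤
            ε * (Y * V (co s) (ct s n) r X) := by
  constructor
  · intro l₀ x₀ ε hε
    obtain ⟨r₀, _, h⟩ := Pool.Agent.Q25.UReg.lin_laws2 (2 * s) (E + 1) (η / 2) θ (by linarith) (by linarith) hθ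
      l₀ x₀ ε hε
    refine ⟨r₀, fun r hr => ?_⟩
    obtain ⟨X₀, hX₀⟩ := Filter.eventually_atTop.1 ((h r hr).and (Filter.eventually_ge_atTop (2 ^ s + 2)))
    refine ⟨X₀, fun X hX n hηn hnE Z Y hY => ?_⟩
    obtain ⟨h1, h2⟩ := hX₀ X hX
    have hb := bounds s n X E hE (by omega) hnE
    have h2s : 1 ≤ 2 ^ s := Nat.one_le_two_pow
    have hX1 : (1 : ℝ) < X := by exact_mod_cast (by omega : 1 < X)
    have hU : (X : ℝ) ^ (η / 2) < 2 ^ n :=
      lt_of_lt_of_le (Real.rpow_lt_rpow_of_exponent_lt hX1 (by linarith)) hηn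
    have hn1 : 1 ≤ n := by
      rcases Nat.eq_zero_or_pos n with h3 | h3
      · subst h3
        rw [pow_zero] at hU
        exact absurd hU (not_lt.2 (Real.one_le_rpow hX1.le (by linarith)))
      · exact h3
    exact h1 (co s) (ct s n) (co_ne s) hb.1 hb.2 (adm s n hn1) (two s n hs) (noTr s n _ hU) Z Y hY
  · obtain ⟨r₀, _, h⟩ := Pool.Agent.Q25.UReg.lin_reg2 (2 * s) (E + 1) θ (by linarith) hθ
    refine ⟨r₀, fun r hr ε hε => ?_⟩
    obtain ⟨c, hc, h1⟩ := h r hr ε hε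
    refine ⟨c, hc, fun δ hδ => ?_⟩
    obtain ⟨B, hB⟩ := h1 δ hδ
    obtain ⟨X₀, hX₀⟩ := Filter.eventually_atTop.1 (hB.and (Filter.eventually_ge_atTop (2 ^ s + 2)))
    refine ⟨B, X₀, fun X hX n hn1 hnE u Y hXY hYX hYu A hA => ?_⟩
    obtain ⟨h1, h2⟩ := hX₀ X hX
    have hb := bounds s n X E hE (by omega) hnE
    exact h1 (co s) (ct s n) (co_ne s) hb.1 hb.2 (adm s n hn1) (two s n hs) u Y hXY hYX hYu A hA

end Pool.Agent.Results.MP_78b39f_nt.UniformLaws
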